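import Pool.Agent.Results.MP_5382b1_gt.BorelRigidFamily

/-!
# A `σ`-homogeneous zero-dimensional space without closed witnesses

ZFC proves that there is a zero-dimensional separable metrizable space which is `σ`-homogeneous
(it is even the union of two disjoint homogeneous subspaces) but which is not `σ`-homogeneous with
closed witnesses: each closed homogeneous subspace of it is nowhere dense, and countably many closed
homogeneous subspaces do not cover it.  There are `2^𝔠` pairwise nonhomeomorphic such spaces.
The spaces are those of the file `BorelRigidFamily`.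
-/

set_option autoImplicit false

namespace Pool.Agent.Results.MP_27e890_gt.ClosedWitnesses

open Set Cardinal Topology

/-- A space `Y` is homogeneous if for all points `x`, `y` there is a homeomorphism of `Y` onto
itself that takes `x` to `y`. -/
def Homogeneous (Y : Type) [TopologicalSpace Y] : Prop :=
  ∀ x y : Y, ∃ h : Y ≃ₜ Y, h x = y

/-- A space `X` is `σ`-homogeneous if it is the union of countably many subspaces each of which is
homogeneous in its subspace topology. -/
def SigmaHomogeneous (X : Type) [TopologicalSpace X] : Prop :=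
  ∃ A : ℕ → Set X, (⋃ n, A n) = Set.univ ∧ ∀ n, Homogeneous (A n)

/-- A space `X` is `σ`-homogeneous with closed witnesses if it is the union of countably many closed
subspaces each of which is homogeneous in its subspace topology. -/
def SigmaHomogeneousClosed (X : Type) [TopologicalSpace X] : Prop :=
  ∃ A : ℕ → Set X, (⋃ n, A n) = Set.univ ∧ ∀ n, IsClosed (A n) ∧ Homogeneous (A n)

/-- The Cantor set has no isolated points. -/
lemma dense_compl (c : ℕ → Bool) : Dense ({c}ᶜ : Set (ℕ → Bool)) := by
  intro d
  by_cases hd : d = c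
  · subst hd
    refine mem_closure_of_tendsto (f := fun n : ℕ => Function.update d n (!(d n)))
      (b := Filter.atTop) ?_ (Filter.Eventually.of_forall fun n => ?_)
    · rw [tendsto_pi_nhds]
      intro i
      refine tendsto_const_nhds.congr' ?_
      filter_upwards [Filter.eventually_gt_atTop i] with n hn
      rw [Function.update_of_ne (by omega)]
    · intro h
      have h1 : Function.update d n (!(d n)) = d := h
      have h2 := congrFun h1 n
      rw [Function.update_self] at h2
      cases hdn : d n <;> simp [hdn] at h2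
  · exact subset_closure hd

/-- A comeager set of points of the Cantor set is dense after the removal of a countable set. -/
lemma dense_diff {G : ℕ → Set (ℕ → Bool)} (ho : ∀ n, IsOpen (G n)) (hd : ∀ n, Dense (G n))
    {D : Set (ℕ → Bool)} (hD : D.Countable) : Dense ((⋂ n, G n) ∩ ⋂ c ∈ D, {c}ᶜ) := by
  have h1 : Dense (⋂ n, G n) := dense_iInter_of_isOpen ho hd
  have h2 : Dense (⋂ c ∈ D, ({c}ᶜ : Set (ℕ → Bool))) :=
    dense_biInter_of_isOpen (fun c _ => isOpen_compl_singleton) hD fun c _ => dense_compl c
  have h3 : IsGδ (⋂ n, G n) := IsGδ.iInter_of_isOpen ho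
  have h4 : IsGδ (⋂ c ∈ D, ({c}ᶜ : Set (ℕ → Bool))) :=
    IsGδ.biInter_of_isOpen hD fun c _ => isOpen_compl_singleton
  exact h1.inter_of_Gδ h3 h4 h2

/-- **Main theorem.**  There are subspaces `X s` of the Cantor set `ℕ → Bool`, for every set `s` of
points of the Cantor set (so there are `2^𝔠` indices), pairwise nonhomeomorphic, such that `X s` is
zero-dimensional, separable, metrizable and `σ`-homogeneous (it is the union of two disjoint
homogeneous subspaces), but each closed homogeneous subspace of `X s` is nowhere dense and `X s` is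
not `σ`-homogeneous with closed witnesses. -/
theorem result :
    ∃ X : Set (ℕ → Bool) → Set (ℕ → Bool),
      -- `X s` is nonempty, separable, metrizable and zero-dimensional
      (∀ s, (X s).Nonempty ∧ TopologicalSpace.SeparableSpace (X s) ∧
        TopologicalSpace.MetrizableSpace (X s) ∧
        TopologicalSpace.IsTopologicalBasis {U : Set (X s) | IsClopen U}) ∧
      -- `X s` is `σ`-homogeneous: it is the union of two disjoint homogeneous subspaces
      (∀ s, SigmaHomogeneous (X s) ∧
        ∃ A B : Set (ℕ → Bool), X s = A ∪ B ∧ Disjoint A B ∧ Homogeneous A ∧ Homogeneous B) ∧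
      -- every closed homogeneous subspace of `X s` is nowhere dense
      (∀ s (W : Set (X s)), IsClosed W → Homogeneous W → IsNowhereDense W) ∧
      -- `X s` is not `σ`-homogeneous with closed witnesses
      (∀ s, ¬ SigmaHomogeneousClosed (X s)) ∧
      -- `X s` and `X t` are homeomorphic for `s = t` only
      (∀ s t, Nonempty (X s ≃ₜ X t) → s = t) := by
  obtain ⟨A, B, X, h1, h2, h3, -, h5, -, -, -, h9⟩ :=
    Pool.Agent.Results.MP_5382b1_gt.BorelRigidFamily.result
  -- nonempty open sets of the Cantor set are uncountable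
  have hopen : ∀ V : Set (ℕ → Bool), IsOpen V → V.Nonempty → ¬ V.Countable := by
    intro V hV hne hc
    have h := dense_diff (G := fun _ => univ) (fun _ => isOpen_univ) (fun _ => dense_univ) hc
    obtain ⟨x, hx, hx'⟩ := h.inter_open_nonempty V hV hne
    have := hx'.2
    simp only [mem_iInter] at this
    exact this x hx rfl
  -- uncountable Borel sets meet `X s` in more than one point
  have htwo : ∀ s (V : Set (ℕ → Bool)), MeasurableSet V → ¬ V.Countable →
      ∃ x ∈ V ∩ X s, ∃ y ∈ V ∩ X s, x ≠ y := by
    intro s V hV hc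
    have h := (h3 s V hV hc).1
    have h' : Set.Nontrivial (V ∩ A s) := by
      rw [← Set.nontrivial_coe_sort, ← Cardinal.one_lt_iff_nontrivial]
      exact lt_of_lt_of_le (Cardinal.one_lt_aleph0.trans Cardinal.aleph0_lt_continuum) h
    obtain ⟨x, hx, y, hy, hxy⟩ := h'
    refine ⟨x, ⟨hx.1, ?_⟩, y, ⟨hy.1, ?_⟩, hxy⟩
    · rw [(h1 s).1]; exact Or.inl hx.2
    · rw [(h1 s).1]; exact Or.inl hy.2
  -- closed homogeneous subspaces have empty interior
  have hint : ∀ s (W : Set (X s)), Homogeneous W → ∀ V : Set (ℕ → Bool), IsOpen V → V.Nonempty →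
      ¬ ((Subtype.val ⁻¹' V : Set (X s)) ⊆ W) := by
    intro s W hW V hV hne hVW
    obtain ⟨x, hx, y, hy, hxy⟩ := htwo s V hV.measurableSet (hopen V hV hne)
    obtain ⟨h, hh⟩ := hW ⟨⟨x, hx.2⟩, hVW hx.1⟩ ⟨⟨y, hy.2⟩, hVW hy.1⟩
    let f : (Subtype.val ⁻¹' V : Set (X s)) → X s := fun v => (h ⟨v.1, hVW v.2⟩).1
    have hfc : Continuous f :=
      continuous_subtype_val.comp (h.continuous.comp (continuous_subtype_val.subtype_mk _))
    have hfi : Function.Injective f := by
      intro u v huv
      have e1 := h.injective (Subtype.ext huv)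
      have e2 : u.1 = v.1 := Subtype.mk_eq_mk.1 e1
      exact Subtype.ext e2
    have e := h5 s _ f (hV.preimage continuous_subtype_val) hfc hfi ⟨⟨x, hx.2⟩, hx.1⟩
    have e2 : (h ⟨⟨x, hx.2⟩, hVW hx.1⟩).1 = (⟨x, hx.2⟩ : X s) := e
    rw [hh] at e2
    exact hxy (congrArg Subtype.val e2).symm
  have hnd : ∀ s (W : Set (X s)), IsClosed W → Homogeneous W → IsNowhereDense W := by
    intro s W hWc hW
    rw [hWc.isNowhereDense_iff]
    by_contra hne
    obtain ⟨p, hp⟩ := Set.nonempty_iff_ne_empty.2 hne
    obtain ⟨V, hV, hVe⟩ := isOpen_induced_iff.1 (isOpen_interior (s := W))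
    refine hint s W hW V hV ⟨p.1, ?_⟩ ?_
    · have : p ∈ (Subtype.val ⁻¹' V : Set (X s)) := by rw [hVe]; exact hp
      exact this
    · rw [hVe]; exact interior_subset
  have hno : ∀ s, ¬ SigmaHomogeneousClosed (X s) := by
    rintro s ⟨W, hWu, hW⟩
    -- the closures of the witnesses in the Cantor set are nowhere dense
    have hd : ∀ n, Dense ((closure (Subtype.val '' W n) : Set (ℕ → Bool))ᶜ) := by
      intro n
      rw [← interior_eq_empty_iff_dense_compl]
      by_contra hne
      obtain ⟨p, hp⟩ := Set.nonempty_iff_ne_empty.2 hne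
      refine hint s (W n) (hW n).2 _ isOpen_interior ⟨p, hp⟩ ?_
      intro q hq
      have hq' : q.1 ∈ closure (Subtype.val '' W n) := interior_subset hq
      have h := closure_subtype.2 hq'
      rwa [(hW n).1.closure_eq] at h
    set G : ℕ → Set (ℕ → Bool) := fun n => (closure (Subtype.val '' W n))ᶜ with hG
    have hGo : ∀ n, IsOpen (G n) := fun n => isClosed_closure.isOpen_compl
    have hunc : ¬ (⋂ n, G n).Countable := by
      intro hc
      obtain ⟨x, hx⟩ := (dense_diff hGo hd hc).nonempty
      have h4 := hx.2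
      simp only [mem_iInter] at h4
      exact h4 x (mem_iInter.1 hx.1) rfl
    obtain ⟨x, hx, -, -, -⟩ := htwo s _ (MeasurableSet.iInter fun n => (hGo n).measurableSet) hunc
    have h6 : (⟨x, hx.2⟩ : X s) ∈ ⋃ n, W n := by rw [hWu]; trivial
    obtain ⟨n, hn⟩ := mem_iUnion.1 h6
    exact mem_iInter.1 hx.1 n (subset_closure ⟨_, hn, rfl⟩)
  refine ⟨X, fun s => ⟨?_, (h2 s).2.1, (h2 s).2.2.1, (h2 s).2.2.2⟩,
    fun s => ⟨(h2 s).1, A s, B s, (h1 s).1, (h1 s).2.1, (h1 s).2.2.1, (h1 s).2.2.2⟩, hnd, hno, h9⟩
  obtain ⟨x, hx, -⟩ := htwo s univ MeasurableSet.univ (hopen univ isOpen_univ univ_nonempty)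
  exact ⟨x, hx.2⟩

end Pool.Agent.Results.MP_27e890_gt.ClosedWitnesses
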